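import Pool.Agent.H14.FermatMain2

set_option autoImplicit false

/-!
# MP_762bfd_nt, Q1, first item: the group `𝓕 / (D + ℤ[x] + P)`
-/

namespace Pool.Agent.Results.MP_762bfd_nt.FullQuotient

open Pool.Agent.H14.Fermat

/-- Q1, first item: `𝓕 / (D + ℤ[x] + P)` is isomorphic, as an abelian group, to the direct sum
`⨁_{n ∈ ℕ} ℚ`. -/
theorem result :
    derivSeries ⊔ polySeries ⊔ powerSeries ≤ fermatSeries ∧
      Nonempty ((↥fermatSeries ⧸
        (derivSeries ⊔ polySeries ⊔ powerSeries).addSubgroupOf fermatSeries) ≃+ (ℕ →₀ ℚ)) := by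
  have h := main good_top
  have h1 : denom ⊤ = derivSeries ⊔ polySeries ⊔ powerSeries := by
    simp [denom]
  have h2 : numer ⊤ = fermatSeries := by
    simp [numer]
  rw [h1, h2] at h
  exact h

end Pool.Agent.Results.MP_762bfd_nt.FullQuotient
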