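import Pool.Agent.H14.FermatMain2

set_option autoImplicit false

/-!
# MP_762bfd_nt, Q2: the group `𝔓_∅`

With `numer ratSeries = 𝓕 ∩ ℚ(x)` and
`denom ratSeries = (D ∩ ℚ(x)) + ℤ[x] + (P ∩ ℚ(x))` (definitions in `Pool.Agent.H14.FermatDefs`),
the quotient `𝔓_∅` is isomorphic to the direct sum of countably infinitely many copies of `ℚ`.
-/

namespace Pool.Agent.Results.MP_762bfd_nt.PEmptyStructure

open Pool.Agent.H14.Fermat

/-- Q2: `𝔓_∅ = 𝓕_∅ / (D_∅ + ℤ[x] + P_∅)` is isomorphic, as an abelian group, to the direct sum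
`⨁_{n ∈ ℕ} ℚ`. -/
theorem result :
    denom ratSeries ≤ numer ratSeries ∧
      Nonempty ((↥(numer ratSeries) ⧸ (denom ratSeries).addSubgroupOf (numer ratSeries)) ≃+
        (ℕ →₀ ℚ)) :=
  main good_rat

end Pool.Agent.Results.MP_762bfd_nt.PEmptyStructure
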